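import Mathlib
import Pool.Agent.W355.FR.Stm

/-!
# Transfer of the function field Szpiro inequality from `ℚ[X]` to `ℤ[X]`
-/

set_option autoImplicit false

namespace Pool.Agent.W656.FR

open Polynomial Pool.Agent.W355.FR

theorem dvdQ (P F : ℤ[X]) (hP : P.IsPrimitive)
    (h : P.map (Int.castRingHom ℚ) ∣ F.map (Int.castRingHom ℚ)) : P ∣ F := by
  by_cases hF : F = 0
  · rw [hF]; exact dvd_zero _
  · have e := F.eq_C_content_mul_primPart
    have hc : F.content ≠ 0 := by rwa [Ne, content_eq_zero_iff]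
    have h1 : P ∣ F.primPart := by
      rw [IsPrimitive.Int.dvd_iff_map_cast_dvd_map_cast P F.primPart hP]
      have h2 : P.map (Int.castRingHom ℚ) ∣
          C ((F.content : ℤ) : ℚ) * F.primPart.map (Int.castRingHom ℚ) := by
        have e2 : F.map (Int.castRingHom ℚ) =
            C ((F.content : ℤ) : ℚ) * F.primPart.map (Int.castRingHom ℚ) := by
          conv_lhs => rw [e]
          rw [Polynomial.map_mul, map_C]
          rfl
        rw [← e2]; exact h
      have hu : IsUnit (C ((F.content : ℤ) : ℚ)) := by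
        rw [isUnit_C]
        exact isUnit_iff_ne_zero.2 (by exact_mod_cast hc)
      exact (hu.dvd_mul_left).1 h2
    rw [e]
    exact Dvd.dvd.mul_left h1 _

theorem ex_prim (P : ℚ[X]) (hP : P ≠ 0) :
    ∃ R : ℤ[X], R.IsPrimitive ∧ Associated (R.map (Int.castRingHom ℚ)) P := by
  obtain ⟨b, hb⟩ := IsLocalization.integerNormalization_map_to_map (nonZeroDivisors ℤ) P
  set R0 := IsLocalization.integerNormalization (nonZeroDivisors ℤ) P with hR0
  have hb0 : ((b : ℤ) : ℚ) ≠ 0 := by exact_mod_cast nonZeroDivisors.ne_zero b.2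
  have hb' : R0.map (Int.castRingHom ℚ) = C ((b : ℤ) : ℚ) * P := by
    have : R0.map (Int.castRingHom ℚ) = R0.map (algebraMap ℤ ℚ) := rfl
    rw [this, hb]
    ext n
    rw [coeff_C_mul, coeff_smul]
    exact zsmul_eq_mul _ _
  have hR0' : R0 ≠ 0 := by
    intro h
    rw [h, Polynomial.map_zero] at hb'
    rcases mul_eq_zero.1 hb'.symm with h1 | h1
    · exact hb0 (by simpa using h1)
    · exact hP h1
  have hc : R0.content ≠ 0 := by rwa [Ne, content_eq_zero_iff]
  refine ⟨R0.primPart, R0.isPrimitive_primPart, ?_⟩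
  have e2 : R0.map (Int.castRingHom ℚ) =
      C ((R0.content : ℤ) : ℚ) * R0.primPart.map (Int.castRingHom ℚ) := by
    conv_lhs => rw [R0.eq_C_content_mul_primPart]
    rw [Polynomial.map_mul, map_C]
    rfl
  have hu : IsUnit (C ((R0.content : ℤ) : ℚ)) := by
    rw [isUnit_C]
    exact isUnit_iff_ne_zero.2 (by exact_mod_cast hc)
  have hu2 : IsUnit (C ((b : ℤ) : ℚ)) := by
    rw [isUnit_C]
    exact isUnit_iff_ne_zero.2 hb0
  have h1 : Associated (R0.primPart.map (Int.castRingHom ℚ)) (R0.map (Int.castRingHom ℚ)) := by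
    rw [e2]
    exact (associated_unit_mul_left _ _ hu).symm
  have h2 : Associated (R0.map (Int.castRingHom ℚ)) P := by
    rw [hb']
    exact associated_unit_mul_left _ _ hu2
  exact h1.trans h2

theorem prim_pow (R : ℤ[X]) (h : R.IsPrimitive) (n : ℕ) : (R ^ n).IsPrimitive := by
  induction n with
  | zero => rw [pow_zero]; exact isPrimitive_one
  | succ n ih => rw [pow_succ]; exact ih.mul h

theorem t_MST : P_MST := by
  classical
  intro hQ k A B hA hB hdeg hne hmin hder
  set f := Int.castRingHom ℚ with hf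
  have hinj : Function.Injective f := Int.cast_injective
  have hmap : (4 * A ^ 3 + 27 * B ^ 2).map f = 4 * (A.map f) ^ 3 + 27 * (B.map f) ^ 2 := by
    simp
  have hD0 : 4 * (A.map f) ^ 3 + 27 * (B.map f) ^ 2 ≠ 0 := by
    rw [← hmap]
    exact (Polynomial.map_ne_zero_iff hinj).2 hne
  have ex : ∀ P : ℚ[X], Irreducible P → ∃ R : ℤ[X], R.IsPrimitive ∧ Associated (R.map f) P :=
    fun P hP => ex_prim P hP.ne_zero
  choose! φ hφ1 hφ2 using ex
  have hφdeg : ∀ P, Irreducible P → (φ P).natDegree = P.natDegree := by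
    intro P hP
    rw [← natDegree_map_eq_of_injective hinj (φ P)]
    exact natDegree_eq_of_degree_eq (degree_eq_degree_of_associated (hφ2 P hP))
  have hφirr : ∀ P, Irreducible P → Irreducible (φ P) := by
    intro P hP
    rw [IsPrimitive.Int.irreducible_iff_irreducible_map_cast (hφ1 P hP)]
    exact (hφ2 P hP).symm.irreducible hP
  have hpos : ∀ P : ℚ[X], Irreducible P → 0 < P.natDegree := by
    intro P hP
    exact hP.natDegree_pos
  have hdvd : ∀ P, Irreducible P → ∀ F : ℤ[X], (φ P ∣ F ↔ P ∣ F.map f) := by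
    intro P hP F
    constructor
    · intro h
      exact (hφ2 P hP).symm.dvd.trans (Polynomial.map_dvd f h)
    · intro h
      exact dvdQ _ _ (hφ1 P hP) ((hφ2 P hP).dvd.trans h)
  set T := (UniqueFactorizationMonoid.normalizedFactors
    (4 * (A.map f) ^ 3 + 27 * (B.map f) ^ 2)).toFinset with hT
  have hT1 : ∀ P ∈ T, Irreducible P ∧ P.Monic := by
    intro P hP
    rw [hT, Multiset.mem_toFinset] at hP
    have h1 := UniqueFactorizationMonoid.irreducible_of_normalized_factor P hP
    refine ⟨h1, ?_⟩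
    have h2 := UniqueFactorizationMonoid.normalize_normalized_factor P hP
    exact (normalize_eq_self_iff_monic h1.ne_zero).1 h2
  have hT2 : ∀ P : ℚ[X], Irreducible P → P.Monic →
      P ∣ 4 * (A.map f) ^ 3 + 27 * (B.map f) ^ 2 → P ∈ T := by
    intro P hP hm hd
    obtain ⟨q, hq, hPq⟩ := UniqueFactorizationMonoid.exists_mem_normalizedFactors_of_dvd hD0 hP hd
    have hqT : q ∈ T := by rw [hT, Multiset.mem_toFinset]; exact hq
    rw [eq_of_monic_of_associated hm (hT1 q hqT).2 hPq]
    exact hqT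
  have hT3 : ∀ P ∈ T, P ∣ 4 * (A.map f) ^ 3 + 27 * (B.map f) ^ 2 := by
    intro P hP
    rw [hT, Multiset.mem_toFinset] at hP
    exact UniqueFactorizationMonoid.dvd_of_mem_normalizedFactors hP
  have hφinj : ∀ P ∈ T, ∀ Q ∈ T, Associated ((φ P).map f) ((φ Q).map f) → P = Q := by
    intro P hP Q hQ' h
    have h1 : Associated P Q :=
      ((hφ2 P (hT1 P hP).1).symm.trans h).trans (hφ2 Q (hT1 Q hQ').1)
    exact eq_of_monic_of_associated (hT1 P hP).2 (hT1 Q hQ').2 h1
  have key := hQ k (A.map f) (B.map f)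
    (by rw [natDegree_map_eq_of_injective hinj]; exact hA)
    (by rw [natDegree_map_eq_of_injective hinj]; exact hB)
    (by rw [← hmap, natDegree_map_eq_of_injective hinj]; exact hdeg)
    hD0
    (by
      intro P hP h4 h6
      have e4 : φ P ^ 4 ∣ A := by
        apply dvdQ _ _ (prim_pow _ (hφ1 P hP) 4)
        rw [Polynomial.map_pow]
        exact ((hφ2 P hP).pow_pow).dvd.trans h4
      have e6 : φ P ^ 6 ∣ B := by
        apply dvdQ _ _ (prim_pow _ (hφ1 P hP) 6)
        rw [Polynomial.map_pow]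
        exact ((hφ2 P hP).pow_pow).dvd.trans h6
      exact hmin (φ P) (hφirr P hP) (by rw [hφdeg P hP]; exact hpos P hP) e4 e6)
    (by
      have : (3 * derivative A * B - 2 * A * derivative B).map f =
          3 * derivative (A.map f) * (B.map f) - 2 * (A.map f) * derivative (B.map f) := by
        simp [derivative_map]
      rw [← this]
      exact (Polynomial.map_ne_zero_iff hinj).2 hder)
    T hT1 hT2 hT3 (fun P => if P ∣ A.map f then 2 else 1)
    (fun P _ h => if_pos h) (fun P _ h => if_neg h)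
  refine ⟨T.image φ, ?_, ?_, ?_⟩
  · intro R hR
    obtain ⟨P, hP, rfl⟩ := Finset.mem_image.1 hR
    have hPi := (hT1 P hP).1
    refine ⟨hφirr P hPi, by rw [hφdeg P hPi]; exact hpos P hPi, ?_⟩
    rw [hdvd P hPi, hmap]
    exact hT3 P hP
  · intro R hR S hS hRS
    obtain ⟨P, hP, rfl⟩ := Finset.mem_image.1 hR
    obtain ⟨Q, hQ', rfl⟩ := Finset.mem_image.1 hS
    have hPi : Irreducible ((φ P).map f) := (hφ2 P (hT1 P hP).1).symm.irreducible (hT1 P hP).1
    have hQi : Irreducible ((φ Q).map f) := (hφ2 Q (hT1 Q hQ').1).symm.irreducible (hT1 Q hQ').1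
    rw [hPi.coprime_iff_not_dvd]
    intro hd
    apply hRS
    rw [hφinj P hP Q hQ' (hPi.associated_of_dvd hQi hd)]
  · rw [Finset.sum_image]
    · refine le_trans key (le_of_eq ?_)
      refine Finset.sum_congr rfl fun P hP => ?_
      have hPi := (hT1 P hP).1
      rw [hφdeg P hPi]
      congr 1
      unfold wt
      by_cases h : P ∣ A.map f
      · rw [if_pos h, if_pos ((hdvd P hPi A).2 h)]
      · rw [if_neg h, if_neg (fun h' => h ((hdvd P hPi A).1 h'))]
    · intro P hP Q hQ' h
      apply hφinj P hP Q hQ'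
      rw [h]

end Pool.Agent.W656.FR
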